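import Mathlib
import Pool.Agent.H14.SumDiff

set_option autoImplicit false

namespace Pool.Agent.Results.MP_ee2194_co.FactorExcess

open Pool.Agent.H14.SumDiff

/-- For every `β < 1` there are graphs with arbitrarily large sum index and
`df(G) ≥ (1 + β) ⌈sm(G)/2⌉`. -/
theorem result (β : ℝ) (hβ : β < 1) (N : ℕ) : ∃ (V : Type) (_ : Finite V) (G : SimpleGraph V),
    G ≠ ⊥ ∧ N ≤ sm G ∧ (1 + β) * ((sm G + 1) / 2 : ℕ) ≤ df G := by
  obtain ⟨m, hm⟩ := exists_nat_ge (1 / (1 - β))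
  obtain ⟨V, i, G, h1, -, h3, h4⟩ := main (2 * (m + N) + 1)
  refine ⟨V, i, G, h1, by omega, le_trans ?_ (Nat.cast_le.2 h4)⟩
  rw [show (sm G + 1) / 2 = m + N + 1 by omega]
  rw [div_le_iff₀ (by linarith)] at hm
  push_cast
  nlinarith [Nat.cast_nonneg (α := ℝ) N]

end Pool.Agent.Results.MP_ee2194_co.FactorExcess
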